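import Pool.Agent.Q71.MM.Ort6

/-!
# The motivic Tate conjecture, with components, for sums with motives of even weight

Let `k` be a finitely generated field of characteristic zero with the absolute Galois group `Γ`, `K`
an algebraic closure of `ℚ_ℓ`, `χ : Γ → Kˣ` the cyclotomic character, `G` the group of the `K`-points
of the motivic Galois group and `τ : G → Kˣ` its action on the Tate motive. The theorem is proved for
any group `Γ`, any set `G` and any function `τ`. A motive over `k` is given by its realization with the
action of `Γ` and the operators of the elements of `G`. The motivic Tate conjecture `G_ℓ = 𝒢_k` for
`W` says that the Galois representation is semisimple and that every multilinear form which `Γ`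
multiplies by `χ ^ n` is multiplied by `τ ^ n` under `G` (the two reductive groups, which need not be
connected, have the same invariants).

Let `T_j` be motives over `k` of even weights `2 u_j` with symmetric forms, of rank `3` or at least `5`,
such that the Galois representation is irreducible under all open subgroups, and such that some element
of an inertia group acts on `T_j` like a type III degeneration, or some Frobenius element acts with the
slopes `h + c`, `h - c` (once each) and `h`. Suppose that they are not isomorphic to each other up to a
twist, and not two of them have rank `8`. (The transcendental parts of K3 surfaces and of hyperkähler
varieties are examples.) The groups are then contained in products of groups `GO(T_j)` with two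
components, and the determinants of the `T_j` are products of powers of `χ` and quadratic characters.

Let `N` be any motive over `k` whose realization is spanned by the images (under subgroups of finite
index) of representations `U` which are small (`H2Small`: for each `j`, `U` has an invariant form up to a
character and small dimension, or inertia acts on `U` with small rank, or there are few pairs of
Frobenius slopes on `U` with the same difference as on `T_j`).

**Theorem.** Let `W` be a direct sum of `N` with copies of the `T_j`, `j ∈ S`, each of which occurs. The
motivic Tate conjecture over `k` is true for `W` if and only if it is true for `N` and for the tensor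
products of tensor constructions of `N` with the determinants of the `T_j`, `j ∈ S`. In particular, if
`N` is a sum of Tate motives, it is true for `W` if and only if the products of the determinants of
the `T_j`, `j ∈ S`, which are powers of the Tate motive on the `ℓ`-adic side, are the same powers on the
motivic side.
-/

namespace Pool.Agent.Results.MP_bbcdf5_ag.EvenWeightSums

open Pool.Agent.Q71.MM.P Pool.Agent.Q71.AB.P

/-- **The motivic Tate conjecture for sums with motives of even weight.** -/
theorem result {K : Type} [Field K] [CharZero K] [IsAlgClosed K] {Γ : Type} [Group Γ]
    {χ : Γ →* Kˣ} {G : Type} {τ : G → Kˣ} {J : Type} {u : J → ℤ} {T : J → MotG K Γ G}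
    {S : Set J} {N W : MotG K Γ G}
    (hT : EvenFamily (fun U => HasTypeIII U ∨ HasSlopes U) χ τ u T) (hW : IsSumUsing T S N W)
    (hN : HasPieces (fun U => ∀ j, H2Small (T j).rep U) N.rep) :
    (MotivicTate χ τ W ↔ TateWithDets χ τ T S N) ∧
      (TateSumG χ τ N → (MotivicTate χ τ W ↔ DetsAgree χ τ T S)) :=
  Pool.Agent.Q71.MM.dets_full (fun _ h => h) hT hW hN

end Pool.Agent.Results.MP_bbcdf5_ag.EvenWeightSums
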