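import Pool.Agent.Q193.LT.Sums
import Pool.Agent.Q193.LT.Crit

/-!
# The motivic Tate conjecture and the cubic hypersurfaces `T(x, y, z) = 1`

Let `k` be a finitely generated field of characteristic zero with an embedding in `ℂ`, `ℓ` a prime
number, and `M` the category of motives over `k` in the sense of André or for absolute Hodge cycles, a
semisimple abelian category with Tate twists `N ↦ N(a)`. For a separated scheme `X` of finite type over
`k` let `D.H i X` be the object of `M` given by the graded object of the weight filtration of the
cohomology with compact supports `H^i_c(X)`; for smooth projective `X` it is the motive `h^i(X)`.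

For a motive `N` let `tate N` be the equality `G_{ℓ,k}(N) = G_k(N)_{ℚ_ℓ}` of question Q1. It is inherited
by the objects of the Tannakian category generated by `N`: if `N` is a direct factor of `N'`, both
groups for `N` are the images of the groups for `N'` (hypothesis `inherit`).

Every motive over `k` is a direct factor of a finite direct sum of Tate twists of motives `h^i(Y)`, `Y`
smooth projective over `k`. So question Q1 for `k` and `ℓ` says that `tate` is true for all these finite
direct sums, that is `SumsHave D (OfProjAll D) tate`.

**Theorem.** (1) The equality `G_{ℓ,k}(N) = G_k(N)_{ℚ_ℓ}` is true for all motives `N` over `k` if and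
only if it is true for all finite direct sums of Tate motives and of Tate twists of motives
`Gr^W H^i_c(T = 1)` of the smooth affine cubic hypersurfaces `T(x, y, z) = 1` of the trilinear forms `T`
over `k`. If `k = ℚ`, it is enough to consider the hypersurfaces
`X_H : ∑_{(i, j, l) ∈ H} x_i y_j z_l = 1` of the finite sets `H` of triples.

(2) For all `n`, it is true for all finite direct sums of Tate twists of motives `h^i(Y)` of smooth
projective varieties of dimension at most `n` over `k` if and only if it is true for all finite direct
sums of Tate motives and of Tate twists of `Gr^W H^i_c(T = 1)` for trilinear forms `T` over `k` such that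
one of the three blocks of variables has at most `n + 2` variables.
-/

set_option autoImplicit false

open CategoryTheory CategoryTheory.Limits AlgebraicGeometry Pool.Agent.Y116.UV Pool.Agent.Z125.UN
  Pool.Agent.Q193.LT

universe v u

namespace Pool.Agent.Results.MP_bbcdf5_ag.HypergraphMotives

/-- **The motivic Tate conjecture and cubic hypersurfaces.** See the explanations above. -/
theorem result {k : Type} [Field k] [CharZero k] (_hk : (⊤ : Subfield k).FG) {M : Type u}
    [Category.{v} M] [Abelian M] {D : CompactData k M} (h : IsMotives D) {tate : M → Prop}
    (inherit : ∀ {N N' : M} (i : N ⟶ N') (r : N' ⟶ N), i ≫ r = 𝟙 N → tate N' → tate N) :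
    (SumsHave D (OfProjAll D) tate ↔ SumsHave D (OfFormsAll D) tate) ∧
    (Frac k → (SumsHave D (OfProjAll D) tate ↔ SumsHave D (OfGraphs D) tate)) ∧
    ∀ n : ℕ, SumsHave D (OfProj D n) tate ↔ SumsHave D (OfForms D (n + 2)) tate :=
  ⟨sums_all_iff h.compact h.generated h.semisimple inherit,
    fun hk => sums_graph_iff h.compact h.generated h.semisimple inherit hk,
    fun n => sums_dim_iff h.compact h.generated h.semisimple inherit n⟩

end Pool.Agent.Results.MP_bbcdf5_ag.HypergraphMotives
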