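import Pool.Agent.Q71.MM.Grp3

/-!
# The motivic Tate conjecture, with components, for sums of motives of odd weight and any small motive

Let `k` be a finitely generated field of characteristic zero with the absolute Galois group `Γ`, `K`
an algebraic closure of `ℚ_ℓ`, `χ : Γ → Kˣ` the cyclotomic character, `G` the group of the `K`-points
of the motivic Galois group and `τ : G → Kˣ` its action on the Tate motive. The theorem is proved for
any group `Γ`, any set `G` and any function `τ`. A motive over `k` is given by its realization with the
action of `Γ` and the operators of the elements of `G`. The motivic Tate conjecture `G_ℓ = 𝒢_k` for
`M` says that the Galois representation is semisimple and that every multilinear form which `Γ`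
multiplies by `χ ^ n` is multiplied by `τ ^ n` under `G` (the two reductive groups, which need not be
connected, have the same invariants).

Let `T_j` be motives of odd weights `w_j` over `k` (or other motives with an alternating form), such that
the Galois representation is irreducible under all open subgroups, and such that some element of an
inertia group acts on `T_j` by a transvection, or some Frobenius element acts with the slopes `h + c`,
`h - c` (once each) and `h`. Suppose that they are not isomorphic to each other up to a twist.

Let `N` be any motive over `k` whose realization is spanned by the images (under subgroups of finite
index) of representations `U` which are small: for each `j`, `U` has an invariant form up to a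
character and small dimension (`SmallDim`), or inertia acts on `U` with small rank (`SmallInertia`), or
there are few pairs of Frobenius slopes on `U` with the same difference as on `T_j` (`FewSlopes`).

**Theorem.** For all direct sums `W` of `N` with copies of the `T_j`, the motivic Tate conjecture
over `k` is true for `W` if and only if it is true for `N`.

In particular no new components appear: the group `π_0` for `W` is the one for `N`.
-/

namespace Pool.Agent.Results.MP_bbcdf5_ag.OddWeightSums

open Pool.Agent.Q71.MM.P Pool.Agent.Q71.AB.P

/-- **The motivic Tate conjecture for sums.** -/
theorem result {K : Type} [Field K] [CharZero K] [IsAlgClosed K] {Γ : Type} [Group Γ]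
    {χ : Γ →* Kˣ} {G : Type} {τ : G → Kˣ} {J : Type} {w : J → ℤ} {T : J → MotG K Γ G}
    {N W : MotG K Γ G} (hT : AltFamily χ τ w T) (hW : IsSumG T N W)
    (hN : HasPieces (fun U => ∀ j, AltSmall (T j).rep U) N.rep) :
    MotivicTate χ τ W ↔ MotivicTate χ τ N :=
  Pool.Agent.Q71.MM.tg_main hT hW hN

end Pool.Agent.Results.MP_bbcdf5_ag.OddWeightSums
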