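import Pool.Agent.Q49.WU.Groups

/-!
# The motivic Tate conjecture in one degree and cubic hypersurfaces

Let `K` be a finitely generated field of characteristic `0` with an embedding in `ℂ`, let `k` be a
subfield over which `K` is algebraic (for instance `k = K`, or `k = ℚ` if `K` is a number field), let `ℓ`
be a prime number and let `w ≥ 0` be a fixed degree. Let `M` be the category `Mot_K` of motives over `K`
(for motivated cycles or for absolute Hodge cycles), a semisimple abelian category with Tate twists
`N ↦ N(a)`. For a scheme `X` of finite type over `k` let `D.H m n X` be the motive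
`Gr^W_{w+2m} H^n_c(X_K)`. For smooth projective `Y` the motive `D.H 0 n Y` is `h^w(Y_K)` if `n = w`, and
zero for all other `n`. So `FactorAt D (OfProjAt D) N` says that `N` is a direct factor of a finite direct
sum of Tate twists of motives `h^w(Y_K)` and, for even `w`, of Tate motives. As `h^v(Y)` is a direct
factor of `h^{v+2m}(Y × ℙ^m)(m)`, these are for even (odd) `w` more and more of all the motives of even
(odd) weights, when `w` grows: `w = 1` gives the motives of abelian varieties and their Tate twists,
`w = 2` contains the motives of surfaces in degree two.

Let `E` be the algebraic closure of `ℚ_ℓ` and `W N = ω(N) ⊗ E` for the Betti realization `ω(N)`. The group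
`P.A N` is the group `𝒢_K(N)(E)` of the `E`-points of the motivic Galois group of `N`, and `P.B N` is the
group `G_{ℓ,K}(N)(E)` of the `E`-points of the `ℓ`-adic monodromy group; both are subgroups of `GL(W N)`.
So `Same P N` is question Q1 for `K`, `ℓ` and `N`. For a direct factor of `N` both groups are the images
by restriction (hypotheses `mot`, `gal`).

**Theorem.** Fix `w`. The equality `G_{ℓ,K}(N) = 𝒢_K(N)` is true for all direct factors `N` of finite
direct sums of Tate twists of motives `h^w(Y_K)`, `Y` smooth projective over `k` (and of Tate motives),
if and only if it is true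

1. for all finite direct sums of Tate motives and of Tate twists of the motives
   `Gr^W_{w+2(a-1)} H^n_c` of the smooth affine cubic hypersurfaces `T(x, y, z) = 1` of all trilinear
   forms `T` with coefficients in `k`, in `a` variables `x_p` and any numbers of variables `y_q`, `z_r`:
   only this one weight of the cohomology of `T = 1` is needed;
2. if `K` is a number field (`k = ℚ`), equivalently for the same sums for the hypersurfaces
   `∑_{(p, q, r) ∈ H} x_p y_q z_r = 1` of all finite sets `H` of triples.
-/

set_option autoImplicit false

open CategoryTheory CategoryTheory.Limits AlgebraicGeometry Pool.Agent.Y116.UV Pool.Agent.Z125.UN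
  Pool.Agent.Q193.LT Pool.Agent.Q137.UO Pool.Agent.Q49.WU

universe v u

namespace Pool.Agent.Results.MP_bbcdf5_ag.WeightByWeight

/-- **The motivic Tate conjecture in one degree and cubic hypersurfaces.** See the explanations above. -/
theorem result {k : Type} [Field k] [CharZero k] {M : Type u} [Category.{v} M] [Abelian M]
    {D : WeightData k M} (h : IsWMotives D) {ℓ : ℕ} [Fact ℓ.Prime]
    {W : M ⥤ ModuleCat.{0} (AlgebraicClosure ℚ_[ℓ])} {P : GroupPair W}
    (mot : Restricts P.A) (gal : Restricts P.B) :
    ((∀ N, FactorAt D (OfProjAt D) N → Same P N) ↔ SumsAt D (OfFormsAt D) (Same P)) ∧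
    (Frac k → ((∀ N, FactorAt D (OfProjAt D) N → Same P N) ↔
      SumsAt D (OfGraphsAt D) (Same P))) := by
  have hP : Inherits (Same P) := Same.factor mot gal
  exact ⟨(factorAt_iff hP _).trans (sumsAt_iff h hP),
    fun hF => (factorAt_iff hP _).trans (sumsAt_graph h hP hF)⟩

end Pool.Agent.Results.MP_bbcdf5_ag.WeightByWeight
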